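import Pool.Agent.Helper63.GW.StB

/-!
# Project GW, module NFB: closure properties of the class `NF`
-/

set_option autoImplicit false

namespace Pool.Agent.Helper67.GW

open Finset MeasureTheory
open Pool.Agent.Helper63.GW

theorem nf_zero : NF (fun _ => 0) :=
  ⟨measurable_const, fun _ => le_rfl, ⟨0, fun _ => le_rfl⟩, integrable_zero _ _ _⟩

theorem nf_add {F G : ℝ → ℝ} (hF : NF F) (hG : NF G) : NF (fun s => F s + G s) := by
  obtain ⟨h1, h2, ⟨B, h3⟩, h4⟩ := hF
  obtain ⟨g1, g2, ⟨B', g3⟩, g4⟩ := hG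
  exact ⟨h1.add g1, fun s => add_nonneg (h2 s) (g2 s), ⟨B + B', fun s => add_le_add (h3 s) (g3 s)⟩,
    h4.add g4⟩

theorem nf_mul {F G : ℝ → ℝ} (hF : NF F) (hG : NF G) : NF (fun s => F s * G s) := by
  obtain ⟨h1, h2, ⟨B, h3⟩, h4⟩ := hF
  obtain ⟨g1, g2, ⟨B', g3⟩, g4⟩ := hG
  have hB : 0 ≤ B := (h2 0).trans (h3 0)
  refine ⟨h1.mul g1, fun s => mul_nonneg (h2 s) (g2 s),
    ⟨B * B', fun s => mul_le_mul (h3 s) (g3 s) (g2 s) hB⟩, ?_⟩
  refine (h4.mul_const B').mono' (h1.mul g1).aestronglyMeasurable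
    (Filter.Eventually.of_forall fun s => ?_)
  rw [Real.norm_eq_abs, abs_of_nonneg (mul_nonneg (h2 s) (g2 s))]
  exact mul_le_mul_of_nonneg_left (g3 s) (h2 s)

theorem nf_smul {F : ℝ → ℝ} {a : ℝ} (ha : 0 ≤ a) (hF : NF F) : NF (fun s => a * F s) := by
  obtain ⟨h1, h2, ⟨B, h3⟩, h4⟩ := hF
  exact ⟨h1.const_mul a, fun s => mul_nonneg ha (h2 s),
    ⟨a * B, fun s => mul_le_mul_of_nonneg_left (h3 s) ha⟩, h4.const_mul a⟩

theorem nf_sum {ι : Type} (s : Finset ι) (F : ι → ℝ → ℝ) (h : ∀ i ∈ s, NF (F i)) :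
    NF (fun x => ∑ i ∈ s, F i x) := by
  classical
  induction s using Finset.induction_on with
  | empty => simpa using nf_zero
  | insert a s ha ih =>
    have h1 := nf_add (h a (mem_insert_self a s)) (ih fun i hi => h i (mem_insert_of_mem hi))
    simpa [Finset.sum_insert ha] using h1

theorem nf_rg (a b : ℝ) (f : ℝ → ℂ) (hf : Continuous f) : NF (rg a b f) := by
  classical
  have hset : MeasurableSet {t : ℝ | a ≤ |t| ∧ |t| ≤ b} :=
    (measurableSet_le measurable_const measurable_norm).inter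
      (measurableSet_le measurable_norm measurable_const)
  have hmeas : Measurable (rg a b f) := by
    unfold rg
    exact Measurable.ite hset hf.norm.measurable measurable_const
  have h0 : ∀ s, 0 ≤ rg a b f s := by
    intro s
    unfold rg
    split_ifs
    · exact norm_nonneg _
    · exact le_rfl
  obtain ⟨M, hM⟩ := (isCompact_Icc (a := -b) (b := b)).exists_bound_of_continuousOn
    hf.continuousOn
  have hM' : ∀ s, rg a b f s ≤ (Set.Icc (-b) b).indicator (fun _ => |M|) s := by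
    intro s
    unfold rg
    split_ifs with h
    · have hs : s ∈ Set.Icc (-b) b := abs_le.1 h.2
      rw [Set.indicator_of_mem hs]
      exact (hM s hs).trans (le_abs_self M)
    · exact Set.indicator_nonneg (fun _ _ => abs_nonneg M) s
  refine ⟨hmeas, h0, ⟨|M|, fun s => (hM' s).trans ?_⟩, ?_⟩
  · exact Set.indicator_le_self' (fun _ _ => abs_nonneg M) s
  · have hint : Integrable ((Set.Icc (-b) b).indicator (fun _ : ℝ => |M|)) := by
      rw [integrable_indicator_iff measurableSet_Icc]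
      exact integrableOn_const (by rw [Real.volume_Icc]; exact ENNReal.ofReal_ne_top)
    refine hint.mono' hmeas.aestronglyMeasurable (Filter.Eventually.of_forall fun s => ?_)
    rw [Real.norm_eq_abs, abs_of_nonneg (h0 s)]
    exact hM' s

theorem nf_gauss (T M : ℝ) (f : ℝ → ℂ) (hT : 0 < T) (hf : Continuous f) (hM : ∀ t, ‖f t‖ ≤ M) :
    NF (fun t => Real.exp (-(t / T) ^ 2 / 2) * ‖f t‖) := by
  have hM0 : 0 ≤ M := (norm_nonneg _).trans (hM 0)
  have hcont : Continuous (fun t => Real.exp (-(t / T) ^ 2 / 2) * ‖f t‖) := by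
    refine Continuous.mul ?_ hf.norm
    fun_prop
  have h0 : ∀ t, 0 ≤ Real.exp (-(t / T) ^ 2 / 2) * ‖f t‖ := fun t =>
    mul_nonneg (Real.exp_pos _).le (norm_nonneg _)
  refine ⟨hcont.measurable, h0, ⟨M, fun t => ?_⟩, ?_⟩
  · have h1 : Real.exp (-(t / T) ^ 2 / 2) ≤ 1 := by
      apply Real.exp_le_one_iff.2
      have := sq_nonneg (t / T)
      linarith
    calc Real.exp (-(t / T) ^ 2 / 2) * ‖f t‖ ≤ 1 * M :=
          mul_le_mul h1 (hM t) (norm_nonneg _) zero_le_one
      _ = M := one_mul M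
  · have hb : 0 < 1 / (2 * T ^ 2) := by positivity
    have hint := (integrable_exp_neg_mul_sq hb).mul_const M
    refine hint.mono' hcont.aestronglyMeasurable (Filter.Eventually.of_forall fun t => ?_)
    rw [Real.norm_eq_abs, abs_of_nonneg (h0 t)]
    have h2 : -(t / T) ^ 2 / 2 = -(1 / (2 * T ^ 2)) * t ^ 2 := by
      field_simp
    rw [h2]
    exact mul_le_mul_of_nonneg_left (hM t) (Real.exp_pos _).le

theorem hNFB : StNfb := by
  refine ⟨fun F G hF hG => nf_add hF hG, fun F G hF hG => nf_mul hF hG,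
    fun F a ha hF => nf_smul ha hF, fun ι s F h => nf_sum s F h, nf_rg,
    fun T M f hT hf hM => nf_gauss T M f hT hf hM, ?_, ?_⟩
  · intro F hF
    have := (nf_mul hF hF).2.2.2
    simpa [pow_two] using this
  · rintro F ξ ⟨h1, h2, ⟨B, h3⟩, h4⟩
    exact ⟨h1.comp (measurable_id.sub_const ξ), fun s => h2 _, ⟨B, fun s => h3 _⟩,
      h4.comp_sub_right ξ⟩

end Pool.Agent.Helper67.GW
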